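import Mathlib

/-!
# Sigma-products of Cantor cubes, d-separability and D-separability
-/

set_option autoImplicit false

universe u v

namespace Pool.Agent.H.MP_339821_gt

open Set Filter Topology

/-- The `Σ`-product `Σ(2^I)` of the Cantor cube `{0,1}^I`: the set of all points of the cube
with countable support (`0` is `false`, `1` is `true`). As a type it carries the topology
inherited from the product topology on `I → Bool`. -/
def SigmaProd (I : Type u) : Set (I → Bool) := {x | {i | x i ≠ false}.Countable}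

/-- `X` is d-separable: it has a dense subset which is the union of countably many
subsets that are discrete in the subspace topology. -/
def IsDSepLower (X : Type v) [TopologicalSpace X] : Prop :=
  ∃ E : ℕ → Set X, (∀ n, DiscreteTopology (E n)) ∧ Dense (⋃ n, E n)

/-- `X` is D-separable: for every sequence `D n` of dense subsets there are discrete
`F n ⊆ D n` whose union is dense. -/
def IsDSepUpper (X : Type v) [TopologicalSpace X] : Prop :=
  ∀ D : ℕ → Set X, (∀ n, Dense (D n)) →
    ∃ F : ℕ → Set X, (∀ n, F n ⊆ D n) ∧ (∀ n, DiscreteTopology (F n)) ∧ Dense (⋃ n, F n)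

variable {I : Type u}

/-- The countable support, as a set of coordinates with value `true`. -/
theorem countable_supp (x : SigmaProd I) : {i | x.1 i = true}.Countable := by
  have h := x.2
  have : {i | x.1 i = true} = {i | x.1 i ≠ false} := by
    ext i; simp
  rw [this]; exact h

theorem mem_of_countable_supp {x : I → Bool} (h : {i | x i = true}.Countable) :
    x ∈ SigmaProd I := by
  have : {i | x i = true} = {i | x i ≠ false} := by
    ext i; simp
  rw [this] at h; exact h

/-- `x` satisfies the finite set of constraints `τ`. -/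
def Sat (x : I → Bool) (τ : Finset (I × Bool)) : Prop := ∀ q ∈ τ, x q.1 = q.2

theorem isOpen_coord (i : I) (b : Bool) : IsOpen {y : SigmaProd I | y.1 i = b} := by
  have hc : Continuous (fun y : SigmaProd I => y.1 i) :=
    (continuous_apply i).comp continuous_subtype_val
  exact (isOpen_discrete ({b} : Set Bool)).preimage hc

theorem isOpen_sat (τ : Finset (I × Bool)) : IsOpen {y : SigmaProd I | Sat y.1 τ} := by
  have : {y : SigmaProd I | Sat y.1 τ} = ⋂ q ∈ τ, {y : SigmaProd I | y.1 q.1 = q.2} := by
    ext y; simp [Sat]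
  rw [this]
  exact isOpen_biInter_finset (fun q _ => isOpen_coord q.1 q.2)

theorem exists_sat_subset {U : Set (SigmaProd I)} (hU : IsOpen U) {x : SigmaProd I}
    (hx : x ∈ U) : ∃ τ : Finset (I × Bool), Sat x.1 τ ∧ ∀ y : SigmaProd I, Sat y.1 τ → y ∈ U := by
  classical
  obtain ⟨V, hV, rfl⟩ := isOpen_induced_iff.1 hU
  obtain ⟨s, u, hu, hsub⟩ := isOpen_pi_iff.1 hV x.1 hx
  refine ⟨s.image (fun i => (i, x.1 i)), ?_, ?_⟩
  · intro q hq
    obtain ⟨i, _, rfl⟩ := Finset.mem_image.1 hq
    rfl
  · intro y hy
    apply hsub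
    intro i hi
    have : y.1 i = x.1 i := hy (i, x.1 i) (Finset.mem_image.2 ⟨i, hi, rfl⟩)
    rw [this]
    exact (hu i hi).2

/-- Convergence in the `Σ`-product is coordinatewise stabilisation. -/
theorem tendsto_sigma {a : ℕ → SigmaProd I} {p : SigmaProd I}
    (h : ∀ i, ∀ᶠ n in atTop, (a n).1 i = p.1 i) : Tendsto a atTop (𝓝 p) := by
  rw [tendsto_subtype_rng, tendsto_pi_nhds]
  intro i
  have : (fun n => (a n).1 i) =ᶠ[atTop] fun _ => p.1 i := h i
  exact tendsto_const_nhds.congr' this.symm

/-- Finite exhaustion of a countable support. -/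
theorem exists_exhaust (x : SigmaProd I) :
    ∃ g : ℕ → Finset I, Monotone g ∧ ∀ i, x.1 i = true ↔ ∃ n, i ∈ g n := by
  classical
  rcases Set.eq_empty_or_nonempty {i | x.1 i = true} with h0 | h0
  · refine ⟨fun _ => ∅, monotone_const, ?_⟩
    intro i
    have : i ∉ {i | x.1 i = true} := by rw [h0]; simp
    simpa using this
  · obtain ⟨f, hf⟩ := (countable_supp x).exists_eq_range h0
    refine ⟨fun n => (Finset.range n).image f, ?_, ?_⟩
    · intro m n hmn
      exact Finset.image_subset_image (Finset.range_subset_range.2 hmn)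
    · intro i
      have : x.1 i = true ↔ i ∈ Set.range f := by rw [← hf]; rfl
      rw [this]
      constructor
      · rintro ⟨k, rfl⟩
        exact ⟨k + 1, Finset.mem_image.2 ⟨k, by simp, rfl⟩⟩
      · rintro ⟨n, hn⟩
        obtain ⟨k, _, rfl⟩ := Finset.mem_image.1 hn
        exact ⟨k, rfl⟩

/-- `Σ(2^I)` is a Fréchet(–Urysohn) space. -/
theorem frechetUrysohn : FrechetUrysohnSpace (SigmaProd I) := by
  classical
  constructor
  intro A p hp
  choose g hgmono hg using (exists_exhaust (I := I))
  -- approximation of `p` by points of `A` on finite sets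
  have happ : ∀ s : Finset I, ∃ a ∈ A, ∀ i ∈ s, a.1 i = p.1 i := by
    intro s
    have hopen := isOpen_sat (I := I) (s.image (fun i => (i, p.1 i)))
    have hpU : p ∈ {y : SigmaProd I | Sat y.1 (s.image (fun i => (i, p.1 i)))} := by
      intro q hq
      obtain ⟨i, _, rfl⟩ := Finset.mem_image.1 hq
      rfl
    obtain ⟨a, haU, haA⟩ := mem_closure_iff.1 hp _ hopen hpU
    refine ⟨a, haA, fun i hi => ?_⟩
    exact haU (i, p.1 i) (Finset.mem_image.2 ⟨i, hi, rfl⟩)
  obtain ⟨f, hfP, hfr⟩ := exists_seq_of_forall_finset_exists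
    (fun q : ℕ × SigmaProd I => q.2 ∈ A)
    (fun q q' : ℕ × SigmaProd I => q.1 < q'.1 ∧
      (∀ i ∈ g q.2 q'.1, q'.2.1 i = p.1 i) ∧ (∀ i ∈ g p q'.1, q'.2.1 i = p.1 i))
    (by
      intro s _
      obtain ⟨N, hN⟩ : ∃ N : ℕ, ∀ q ∈ s, q.1 < N := by
        refine ⟨(s.sup Prod.fst) + 1, fun q hq => Nat.lt_succ_of_le (Finset.le_sup (f := Prod.fst) hq)⟩
      obtain ⟨a, haA, ha⟩ := happ ((s.biUnion fun q => g q.2 N) ∪ g p N)
      refine ⟨(N, a), haA, fun q hq => ⟨hN q hq, fun i hi => ?_, fun i hi => ?_⟩⟩
      · exact ha i (Finset.mem_union_left _ (Finset.mem_biUnion.2 ⟨q, hq, hi⟩))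
      · exact ha i (Finset.mem_union_right _ hi))
  have hmono : StrictMono (fun n => (f n).1) := fun m n hmn => (hfr m n hmn).1
  have hge : ∀ n, n ≤ (f n).1 := fun n => hmono.id_le n
  refine ⟨fun n => (f n).2, hfP, ?_⟩
  apply tendsto_sigma
  intro i
  by_cases hpi : p.1 i = true
  · obtain ⟨N, hN⟩ := (hg p i).1 hpi
    filter_upwards [eventually_ge_atTop (N + 1)] with n hn
    have hr := hfr 0 n (by omega)
    refine hr.2.2 i (hgmono p ?_ hN)
    exact le_trans (by omega) (hge n)
  · by_cases hex : ∃ m, (f m).2.1 i = true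
    · obtain ⟨m, hm⟩ := hex
      obtain ⟨N, hN⟩ := (hg (f m).2 i).1 hm
      filter_upwards [eventually_ge_atTop (N + m + 1)] with n hn
      have hr := hfr m n (by omega)
      refine hr.2.1 i (hgmono (f m).2 ?_ hN)
      exact le_trans (by omega) (hge n)
    · push Not at hex
      refine Eventually.of_forall fun n => ?_
      have h1 : (f n).2.1 i = false := by simpa using hex n
      have h2 : p.1 i = false := by simpa using hpi
      rw [h1, h2]

/-- `Σ(2^I)` is d-separable. -/
theorem isDSepLower : IsDSepLower (SigmaProd I) := by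
  classical
  refine ⟨fun n => {x | {i | x.1 i = true}.encard = n}, ?_, ?_⟩
  · intro n
    rw [discreteTopology_subtype_iff']
    intro x hx
    have hfin : {i | x.1 i = true}.Finite := by
      apply Set.finite_of_encard_eq_coe hx
    refine ⟨{y : SigmaProd I | Sat y.1 (hfin.toFinset.image (fun i => (i, true)))},
      isOpen_sat _, ?_⟩
    ext y
    constructor
    · rintro ⟨hy1, hy2⟩
      have hsub : {i | x.1 i = true} ⊆ {i | y.1 i = true} := by
        intro i hi
        exact hy1 (i, true) (Finset.mem_image.2 ⟨i, by simpa using hi, rfl⟩)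
      have hfy : {i | y.1 i = true}.Finite := Set.finite_of_encard_eq_coe hy2
      have heq : {i | x.1 i = true} = {i | y.1 i = true} := by
        apply hfin.eq_of_subset_of_encard_le hsub
        rw [hx, hy2]
      apply Subtype.ext
      funext i
      have := Set.ext_iff.1 heq i
      simp only [Set.mem_ofPred_eq] at this
      cases hxi : x.1 i <;> cases hyi : y.1 i <;> simp_all
    · rintro rfl
      refine ⟨?_, hx⟩
      intro q hq
      obtain ⟨i, hi, rfl⟩ := Finset.mem_image.1 hq
      simpa using hi
  · rw [dense_iff_inter_open]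
    rintro U hU ⟨x, hx⟩
    obtain ⟨τ, hxτ, hτ⟩ := exists_sat_subset hU hx
    let S : Set I := {i | x.1 i = true ∧ ∃ q ∈ τ, q.1 = i}
    have hS : S.Finite := (τ.image Prod.fst).finite_toSet.subset (by
      rintro i ⟨_, q, hq, rfl⟩
      exact Finset.mem_coe.2 (Finset.mem_image.2 ⟨q, hq, rfl⟩))
    let y : I → Bool := fun i => decide (i ∈ S)
    have hy : {i | y i = true} = S := by
      ext i; simp [y]
    have hyc : y ∈ SigmaProd I := mem_of_countable_supp (by rw [hy]; exact hS.countable)
    refine ⟨⟨y, hyc⟩, ?_, ?_⟩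
    · apply hτ
      intro q hq
      have h1 := hxτ q hq
      by_cases hq1 : x.1 q.1 = true
      · have : q.1 ∈ S := ⟨hq1, q, hq, rfl⟩
        simp only [y, this, decide_true]
        rw [← h1, hq1]
      · have : q.1 ∉ S := fun h => hq1 h.1
        simp only [y, this, decide_false]
        rw [← h1]
        simpa using hq1
    · rw [mem_iUnion]
      refine ⟨S.ncard, ?_⟩
      simp only [Set.mem_ofPred_eq, hy]
      exact hS.cast_ncard_eq.symm

end Pool.Agent.H.MP_339821_gt
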