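import Pool.Agent.H.MP_339821_gt.Main

/-!
# `Σ(2^I)` is D-separable when the cardinality of `I` has countable cofinality
-/

set_option autoImplicit false

universe u

namespace Pool.Agent.H.MP_339821_gt

open Set Filter Topology Cardinal Order

/-- Free sets for a set mapping. -/
def Free {L : Type u} (g : L → Set L) (H : Set L) : Prop := ∀ x ∈ H, ∀ y ∈ H, x ≠ y → y ∉ g x

theorem exists_maxFree {L : Type u} (g : L → Set L) (A : Set L) :
    ∃ H : Set L, H ⊆ A ∧ Free g H ∧ ∀ x ∈ A, x ∉ H → ¬ Free g (insert x H) := by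
  obtain ⟨H, hH⟩ := zorn_subset {H : Set L | H ⊆ A ∧ Free g H} (by
    intro c hc hchain
    refine ⟨⋃₀ c, ⟨sUnion_subset fun s hs => (hc hs).1, ?_⟩, fun s hs => subset_sUnion_of_mem hs⟩
    rintro x ⟨s, hs, hxs⟩ y ⟨t, ht, hyt⟩ hxy
    rcases hchain.total hs ht with h | h
    · exact (hc ht).2 x (h hxs) y hyt hxy
    · exact (hc hs).2 x hxs y (h hyt) hxy)
  refine ⟨H, hH.prop.1, hH.prop.2, fun x hx hxH hfree => ?_⟩
  have h1 := hH.le_of_ge (y := insert x H) ⟨insert_subset hx hH.prop.1, hfree⟩ (subset_insert x H)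
  exact hxH (h1 (mem_insert x H))

/-- A set mapping with values of size at most `μ` on a set of size at least `μ⁺⁺` has a free set of
size `μ`. -/
theorem exists_free {L : Type u} {μ : Cardinal.{u}} (hμ : ℵ₀ ≤ μ) (hL : succ (succ μ) ≤ #L)
    (g : L → Set L) (hg : ∀ x, #(g x) ≤ μ) : ∃ H : Set L, μ ≤ #H ∧ Free g H := by
  classical
  by_contra hcon
  push Not at hcon
  have hsmall : ∀ H : Set L, Free g H → #H ≤ μ := by
    intro H hH
    by_contra h
    exact hcon H (not_le.1 h).le hH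
  choose M hMsub hMfree hMmax using exists_maxFree g
  let J := (succ μ).ord.ToType
  have hJ : #J = succ μ := mk_ord_toType _
  let H : J → Set L := (wellFounded_lt (α := J)).fix (fun i F => M (⋃ j, ⋃ h : j < i, F j h)ᶜ)
  have hH : ∀ i, H i = M (⋃ j, ⋃ _ : j < i, H j)ᶜ := fun i => WellFounded.fix_eq _ _ i
  have hHfree : ∀ i, Free g (H i) := fun i => by rw [hH]; exact hMfree _
  have hdisj : ∀ i j x, j < i → x ∈ H i → x ∈ H j → False := by
    intro i j x hji hxi hxj
    rw [hH i] at hxi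
    exact hMsub _ hxi (mem_iUnion.2 ⟨j, mem_iUnion.2 ⟨hji, hxj⟩⟩)
  let B : Set L := ⋃ i, (H i ∪ ⋃ h ∈ H i, g h)
  have hBi : ∀ i, #(H i ∪ ⋃ h ∈ H i, g h : Set L) ≤ μ := by
    intro i
    refine (mk_union_le _ _).trans ?_
    have h1 : #(⋃ h ∈ H i, g h : Set L) ≤ μ := by
      refine (mk_biUnion_le _ _).trans ?_
      calc #(H i) * ⨆ x : H i, #(g x.1) ≤ μ * μ :=
            mul_le_mul' (hsmall _ (hHfree i)) (ciSup_le' fun x => hg _)
        _ = μ := mul_eq_self hμ
    calc #(H i) + #(⋃ h ∈ H i, g h : Set L) ≤ μ + μ := add_le_add (hsmall _ (hHfree i)) h1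
      _ = μ := add_eq_self hμ
  have hB : #B ≤ succ μ := by
    refine (mk_iUnion_le _).trans ?_
    calc #J * ⨆ i, #(H i ∪ ⋃ h ∈ H i, g h : Set L) ≤ succ μ * succ μ :=
          mul_le_mul' hJ.le (ciSup_le' fun i => (hBi i).trans (le_succ μ))
      _ = succ μ := mul_eq_self (hμ.trans (le_succ μ))
  obtain ⟨x, hx⟩ : ∃ x, x ∉ B := by
    by_contra h
    push Not at h
    have h1 : B = Set.univ := eq_univ_of_forall h
    rw [h1, mk_univ] at hB
    exact absurd (hL.trans hB) (not_le.2 (lt_succ _))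
  have hx1 : ∀ i, x ∉ H i := fun i h => hx (mem_iUnion.2 ⟨i, Or.inl h⟩)
  have hx2 : ∀ i, ∀ h ∈ H i, x ∉ g h := fun i h hh hxg =>
    hx (mem_iUnion.2 ⟨i, Or.inr (mem_iUnion.2 ⟨h, mem_iUnion.2 ⟨hh, hxg⟩⟩)⟩)
  have hx3 : ∀ i, ∃ b, b ∈ H i ∧ b ∈ g x := by
    intro i
    have h1 : x ∈ (⋃ j, ⋃ _ : j < i, H j)ᶜ := by
      intro h
      obtain ⟨j, hj⟩ := mem_iUnion.1 h
      obtain ⟨_, hj⟩ := mem_iUnion.1 hj
      exact hx1 j hj
    have h2 := hMmax _ x h1 (by rw [← hH]; exact hx1 i)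
    rw [← hH] at h2
    by_contra h3
    push Not at h3
    apply h2
    intro a ha b hb hab
    rcases ha with rfl | ha
    · rcases hb with rfl | hb
      · exact absurd rfl hab
      · exact h3 b hb
    · rcases hb with rfl | hb
      · exact hx2 i a ha
      · exact hHfree i a ha b hb hab
  choose b hb1 hb2 using hx3
  have hinj : Function.Injective (fun i => (⟨b i, hb2 i⟩ : g x)) := by
    intro i j hij
    have h1 : b i = b j := congrArg Subtype.val hij
    rcases lt_trichotomy i j with h | h | h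
    · exact (hdisj j i (b j) h (hb1 j) (h1 ▸ hb1 i)).elim
    · exact h
    · exact (hdisj i j (b i) h (hb1 i) (h1 ▸ hb1 j)).elim
  have h1 := mk_le_of_injective hinj
  rw [hJ] at h1
  exact absurd (h1.trans (hg x)) (not_le.2 (lt_succ μ))

variable {I : Type u}

/-- A point satisfying a consistent finite constraint and one more positive constraint. -/
theorem exists_point {p : Finset (I × Bool)} {z : I → Bool} (hz : Sat z p) {ξ : I}
    (hξ : ∀ q ∈ p, q.1 ≠ ξ) : ∃ y : SigmaProd I, Sat y.1 p ∧ y.1 ξ = true := by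
  classical
  let y : I → Bool := fun i => decide (i = ξ ∨ (i, true) ∈ p)
  have hy : ∀ i, y i = true ↔ (i = ξ ∨ (i, true) ∈ p) := fun i => decide_eq_true_iff
  refine ⟨⟨y, mem_of_countable_supp ?_⟩, ?_, (hy ξ).2 (Or.inl rfl)⟩
  · refine ((insert ξ (p.image Prod.fst)).finite_toSet.subset ?_).countable
    intro i hi
    rcases (hy i).1 hi with h | h
    · rw [h]; simp
    · exact Finset.mem_coe.2 (Finset.mem_insert_of_mem (Finset.mem_image.2 ⟨_, h, rfl⟩))
  · rintro ⟨i, b⟩ hq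
    show y i = b
    cases b with
    | true => exact (hy i).2 (Or.inr hq)
    | false =>
      by_contra hcon
      have h1 : y i = true := by simpa using hcon
      rcases (hy i).1 h1 with h | h
      · exact hξ _ hq h
      · have h2 : z i = false := hz _ hq
        have h3 : z i = true := hz _ h
        rw [h2] at h3
        exact Bool.noConfusion h3

/-- One discrete subset of a dense set meets all constraints on a small set of coordinates. -/
theorem exists_discrete {D : Set (SigmaProd I)} (hD : Dense D) {A : Set I} [Infinite A]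
    {μ : Cardinal.{u}} (hμ : #A = μ) (hI : succ (succ μ) ≤ #I) :
    ∃ F : Set (SigmaProd I), F ⊆ D ∧ DiscreteTopology F ∧
      ∀ p : Finset (I × Bool), (∀ q ∈ p, q.1 ∈ A) → (∃ z, Sat z p) → ∃ d ∈ F, Sat d.1 p := by
  classical
  have hμ0 : ℵ₀ ≤ μ := by rw [← hμ]; exact aleph0_le_mk A
  have hAI : #A < #I := by
    rw [hμ]
    exact ((lt_succ μ).trans (lt_succ _)).trans_le hI
  have hinf : Infinite I := Infinite.of_injective (Subtype.val : A → I) Subtype.val_injective
  have hL : succ (succ μ) ≤ #(Aᶜ : Set I) := by rw [mk_compl_of_infinite A hAI]; exact hI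
  let P := {p : Finset (I × Bool) // (∀ q ∈ p, q.1 ∈ A) ∧ ∃ z, Sat z p}
  have hP : #P ≤ μ := by
    let φ : P → Finset (A × Bool) := fun p =>
      p.1.attach.image fun q => ((⟨q.1.1, p.2.1 q.1 q.2⟩ : A), q.1.2)
    have hφ : Function.Injective φ := by
      intro p p' h
      have key : ∀ (p : P) (q : I × Bool), q ∈ p.1 ↔
          ∃ h : q.1 ∈ A, ((⟨q.1, h⟩ : A), q.2) ∈ φ p := by
        intro p q
        constructor
        · intro hq
          exact ⟨p.2.1 q hq, Finset.mem_image.2 ⟨⟨q, hq⟩, Finset.mem_attach _ _, rfl⟩⟩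
        · rintro ⟨h, hq⟩
          obtain ⟨⟨q', hq'⟩, -, he⟩ := Finset.mem_image.1 hq
          have h1 : q'.1 = q.1 := congrArg (fun t : A × Bool => (t.1 : I)) he
          have h2 : q'.2 = q.2 := congrArg (fun t : A × Bool => t.2) he
          have h3 : q' = q := Prod.ext h1 h2
          rw [← h3]
          exact hq'
      apply Subtype.ext
      ext q
      rw [key p q, key p' q, h]
    refine (mk_le_of_injective hφ).trans ?_
    rw [mk_finset_of_infinite, mk_prod]
    simp only [mk_bool, lift_uzero]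
    rw [hμ]
    calc μ * lift.{u} 2 ≤ μ * μ := by
          refine mul_le_mul' le_rfl ?_
          rw [lift_ofNat]
          exact (natCast_lt_aleph0 (n := 2)).le.trans hμ0
      _ ≤ μ := (mul_eq_self hμ0).le
  have hex : ∀ (p : P) (ξ : (Aᶜ : Set I)), ∃ d ∈ D, Sat d.1 p.1 ∧ d.1 ξ = true := by
    intro p ξ
    obtain ⟨z, hz⟩ := p.2.2
    obtain ⟨y, hy1, hy2⟩ := exists_point hz (ξ := ξ.1) (fun q hq h => ξ.2 (h ▸ p.2.1 q hq))
    obtain ⟨d, hd1, hd2⟩ := hD.inter_open_nonempty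
      ({y : SigmaProd I | Sat y.1 p.1} ∩ {y : SigmaProd I | y.1 ξ = true})
      ((isOpen_sat p.1).inter (isOpen_coord ξ.1 true)) ⟨y, hy1, hy2⟩
    exact ⟨d, hd2, hd1.1, hd1.2⟩
  choose d hd1 hd2 hd3 using hex
  let g : (Aᶜ : Set I) → Set (Aᶜ : Set I) := fun ξ => ⋃ p : P, {η | (d p ξ).1 η = true}
  have hg : ∀ ξ, #(g ξ) ≤ μ := by
    intro ξ
    refine (mk_iUnion_le _).trans ?_
    calc #P * ⨆ p : P, #{η : (Aᶜ : Set I) | (d p ξ).1 η = true} ≤ μ * μ := by
          refine mul_le_mul' hP (ciSup_le' fun p => ?_)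
          have h1 : {η : (Aᶜ : Set I) | (d p ξ).1 η = true}.Countable :=
            (countable_supp (d p ξ)).preimage Subtype.val_injective
          exact h1.le_aleph0.trans hμ0
      _ = μ := mul_eq_self hμ0
  obtain ⟨H, hH1, hH2⟩ := exists_free hμ0 hL g hg
  obtain ⟨e⟩ : Nonempty (P ↪ H) := (hP.trans hH1)
  refine ⟨range fun p : P => d p (e p).1, ?_, ?_, ?_⟩
  · rintro _ ⟨p, rfl⟩
    exact hd1 _ _
  · rw [discreteTopology_subtype_iff']
    rintro _ ⟨p, rfl⟩
    refine ⟨{y : SigmaProd I | y.1 (e p).1 = true}, isOpen_coord _ _, ?_⟩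
    ext y
    constructor
    · rintro ⟨hy, p', rfl⟩
      by_cases hpp : p' = p
      · rw [hpp]; rfl
      · exfalso
        have h1 : (e p').1 ≠ (e p).1 := fun h => hpp (e.injective (Subtype.ext h))
        exact hH2 _ (e p').2 _ (e p).2 h1 (mem_iUnion.2 ⟨p', hy⟩)
    · intro hy
      rw [mem_singleton_iff] at hy
      rw [hy]
      exact ⟨hd3 _ _, p, rfl⟩
  · intro p hp1 hp2
    exact ⟨_, ⟨⟨p, hp1, hp2⟩, rfl⟩, hd2 _ _⟩

/-- The case of countably many coordinates. -/
theorem isDSepUpper_of_countable [Countable I] : IsDSepUpper (SigmaProd I) := by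
  classical
  intro D hD
  obtain ⟨p, hp⟩ := exists_surjective_nat (Finset (I × Bool))
  have h1 : ∀ n, ∃ F : Set (SigmaProd I), F ⊆ D n ∧ F.Subsingleton ∧
      ((∃ y : SigmaProd I, Sat y.1 (p n)) → ∃ d ∈ F, Sat d.1 (p n)) := by
    intro n
    by_cases hy : ∃ y : SigmaProd I, Sat y.1 (p n)
    · obtain ⟨y, hy⟩ := hy
      obtain ⟨d, hd1, hd2⟩ := (hD n).inter_open_nonempty _ (isOpen_sat (p n)) ⟨y, hy⟩
      exact ⟨{d}, singleton_subset_iff.2 hd2, subsingleton_singleton, fun _ => ⟨d, rfl, hd1⟩⟩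
    · exact ⟨∅, empty_subset _, subsingleton_empty, fun h => absurd h hy⟩
  choose F hF1 hF2 hF3 using h1
  refine ⟨F, hF1, fun n => ?_, ?_⟩
  · have := (hF2 n).coe_sort
    infer_instance
  · rw [dense_iff_inter_open]
    rintro U hU ⟨x, hx⟩
    obtain ⟨τ, hxτ, hτ⟩ := exists_sat_subset hU hx
    obtain ⟨n, rfl⟩ := hp τ
    obtain ⟨d, hd1, hd2⟩ := hF3 n ⟨x, hxτ⟩
    exact ⟨d, hτ d hd2, mem_iUnion.2 ⟨n, hd1⟩⟩

/-- `Σ(2^I)` is D-separable if the cardinality of `I` has countable cofinality. -/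
theorem isDSepUpper_of_cof [Infinite I] (h : (#I).ord.cof = ℵ₀) : IsDSepUpper (SigmaProd I) := by
  classical
  rcases (aleph0_le_mk I).eq_or_lt with h0 | h0
  · have hc : Countable I := mk_le_aleph0_iff.1 h0.ge
    exact isDSepUpper_of_countable
  have hlim : ∀ μ < #I, succ μ < #I := by
    intro μ hμ
    refine (succ_le_of_lt hμ).lt_of_ne fun he => ?_
    by_cases hμ0 : ℵ₀ ≤ μ
    · have h1 := (isRegular_succ hμ0).cof_ord
      rw [he, h] at h1
      exact h0.ne h1
    · have h1 : succ μ ≤ ℵ₀ := succ_le_of_lt (not_le.1 hμ0)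
      rw [he] at h1
      exact absurd h1 (not_le.2 h0)
  obtain ⟨e⟩ : Nonempty (I ≃ (#I).ord.ToType) := Cardinal.eq.1 (mk_ord_toType #I).symm
  obtain ⟨S, hS1, hS2⟩ := exists_cof_eq (#I).ord.ToType
  rw [Ordinal.cof_toType, h] at hS2
  have hSc : S.Countable := le_aleph0_iff_set_countable.1 hS2.le
  have hSn : S.Nonempty := by
    obtain ⟨x⟩ := (inferInstance : Nonempty I)
    obtain ⟨s, hs, -⟩ := hS1 (e x)
    exact ⟨s, hs⟩
  obtain ⟨b, hb⟩ := hSc.exists_eq_range hSn
  have hb' : ∀ x, ∃ n, x ≤ b n := by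
    intro x
    obtain ⟨s, hs, hxs⟩ := hS1 x
    rw [hb] at hs
    obtain ⟨n, rfl⟩ := hs
    exact ⟨n, hxs⟩
  let f : ℕ ↪ I := Infinite.natEmbedding I
  let A : ℕ → Set I := fun n => {x | e x ≤ b n} ∪ range f
  have hAinf : ∀ n, Infinite (A n) := fun n =>
    ((infinite_range_of_injective f.injective).mono subset_union_right).to_subtype
  have hAlt : ∀ n, #(A n) < #I := by
    intro n
    refine (mk_union_le _ _).trans_lt (add_lt_of_lt h0.le ?_ ?_)
    · have h1 : {x | e x ≤ b n} ⊆ insert (e.symm (b n)) (e ⁻¹' Iio (b n)) := by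
        intro x hx
        rcases (show e x ≤ b n from hx).eq_or_lt with h2 | h2
        · left
          rw [← h2, e.symm_apply_apply]
        · exact Or.inr h2
      refine (mk_le_mk_of_subset h1).trans_lt (mk_insert_le.trans_lt (add_lt_of_lt h0.le ?_ ?_))
      · refine (mk_preimage_of_injective _ _ e.injective).trans_lt ?_
        simpa using mk_Iio_lt (b n)
      · exact one_lt_aleph0.trans h0
    · exact (countable_range f).le_aleph0.trans_lt h0
  intro D hD
  have hA2 : ∀ n, succ (succ #(A n)) ≤ #I := fun n => (hlim _ (hlim _ (hAlt n))).le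
  have hex : ∀ n, ∃ F : Set (SigmaProd I), F ⊆ D n ∧ DiscreteTopology F ∧
      ∀ p : Finset (I × Bool), (∀ q ∈ p, q.1 ∈ A n) → (∃ z, Sat z p) → ∃ d ∈ F, Sat d.1 p :=
    fun n => by
      have := hAinf n
      exact exists_discrete (hD n) rfl (hA2 n)
  choose F hF1 hF2 hF3 using hex
  refine ⟨F, hF1, hF2, ?_⟩
  rw [dense_iff_inter_open]
  rintro U hU ⟨x, hx⟩
  obtain ⟨τ, hxτ, hτ⟩ := exists_sat_subset hU hx
  have hne : Nonempty (#I).ord.ToType := ⟨b 0⟩
  obtain ⟨m, hm⟩ := (τ.image fun q => e q.1).exists_le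
  obtain ⟨n, hn⟩ := hb' m
  obtain ⟨d, hd1, hd2⟩ := hF3 n τ (fun q hq => Or.inl
    ((hm _ (Finset.mem_image.2 ⟨q, hq, rfl⟩)).trans hn)) ⟨x.1, hxτ⟩
  exact ⟨d, hτ d hd2, mem_iUnion.2 ⟨n, hd1⟩⟩

end Pool.Agent.H.MP_339821_gt
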