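import Pool.Agent.H.MP_339821_gt.Basic

/-!
# `Σ(2^I)` is not D-separable when `#I ^ ℵ₀ = #I`
-/

set_option autoImplicit false

universe u

namespace Pool.Agent.H.MP_339821_gt

open Set Filter Topology Cardinal

variable {I : Type u}

/-- Codes: countable sequences of countable families of finite constraints. -/
abbrev Code (I : Type u) : Type u := ℕ → ℕ → Option (Finset (I × Bool))

/-- `x` is generic for the code `c`. -/
def Gen (c : Code I) (x : I → Bool) : Prop :=
  ∀ n, (∃ j τ, c n j = some τ ∧ Sat x τ) ∨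
    (∃ p : Finset (I × Bool), Sat x p ∧ ∀ j τ, c n j = some τ → ¬ ∃ z, Sat z p ∧ Sat z τ)

theorem Sat.mono {x : I → Bool} {τ τ' : Finset (I × Bool)} (h : Sat x τ') (hs : τ ⊆ τ') :
    Sat x τ := fun q hq => h q (hs hq)

/-- The dense set of generic points. -/
def GenSet (e : I → Code I) : Set (SigmaProd I) :=
  {x | ∀ ξ, x.1 ξ = true → Gen (e ξ) x.1}

/-- closing off a finite set of coordinates under the domains of the codes -/
def closeStep (e : I → Code I) (A : Set I) : Set I :=
  A ∪ ⋃ ξ ∈ A, ⋃ n : ℕ, ⋃ j : ℕ, {i | ∃ τ, e ξ n j = some τ ∧ ∃ q ∈ τ, q.1 = i}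

theorem closeStep_countable (e : I → Code I) {A : Set I} (hA : A.Countable) :
    (closeStep e A).Countable := by
  classical
  refine hA.union (hA.biUnion fun ξ _ => countable_iUnion fun n => countable_iUnion fun j => ?_)
  cases h : e ξ n j with
  | none =>
    have : {i : I | ∃ τ, (none : Option (Finset (I × Bool))) = some τ ∧ ∃ q ∈ τ, q.1 = i} = ∅ := by
      ext i; simp
    rw [this]; exact countable_empty
  | some τ =>
    refine ((τ.image Prod.fst).finite_toSet.subset ?_).countable
    rintro i ⟨τ', hτ', q, hq, rfl⟩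
    have : τ = τ' := Option.some.inj hτ'
    subst this
    exact Finset.mem_coe.2 (Finset.mem_image.2 ⟨q, hq, rfl⟩)

/-- The set `GenSet e` is dense, whatever the assignment `e` of codes. -/
theorem dense_genSet (e : I → Code I) : Dense (GenSet e) := by
  classical
  rw [dense_iff_inter_open]
  rintro U hU ⟨x0, hx0⟩
  obtain ⟨τ0, hxτ0, hτ0⟩ := exists_sat_subset hU hx0
  -- closed countable set of coordinates
  let An : ℕ → Set I := fun m => Nat.rec {i | ∃ q ∈ τ0, q.1 = i} (fun _ A => closeStep e A) m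
  have hAn0 : An 0 = {i | ∃ q ∈ τ0, q.1 = i} := rfl
  have hAnS : ∀ m, An (m + 1) = closeStep e (An m) := fun m => rfl
  have hAnc : ∀ m, (An m).Countable := by
    intro m
    induction m with
    | zero =>
      rw [hAn0]
      refine ((τ0.image Prod.fst).finite_toSet.subset ?_).countable
      rintro i ⟨q, hq, rfl⟩
      exact Finset.mem_coe.2 (Finset.mem_image.2 ⟨q, hq, rfl⟩)
    | succ m ih => rw [hAnS]; exact closeStep_countable e ih
  let A : Set I := ⋃ m, An m
  have hAc : A.Countable := countable_iUnion hAnc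
  have hA0 : ∀ q ∈ τ0, q.1 ∈ A := fun q hq => mem_iUnion.2 ⟨0, q, hq, rfl⟩
  have hAcl : ∀ ξ ∈ A, ∀ n j τ, e ξ n j = some τ → ∀ q ∈ τ, q.1 ∈ A := by
    intro ξ hξ n j τ hτ q hq
    obtain ⟨m, hm⟩ := mem_iUnion.1 hξ
    refine mem_iUnion.2 ⟨m + 1, ?_⟩
    rw [hAnS]
    refine Or.inr ?_
    simp only [mem_iUnion]
    exact ⟨ξ, hm, n, j, τ, hτ, q, hq, rfl⟩
  rcases A.eq_empty_or_nonempty with hAe | hAne
  · -- no constraints: the zero point works
    have hτe : τ0 = ∅ := by
      apply Finset.eq_empty_of_forall_notMem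
      intro q hq
      have := hA0 q hq
      rw [hAe] at this
      exact this
    let z : SigmaProd I := ⟨fun _ => false, mem_of_countable_supp (by simp)⟩
    refine ⟨z, hτ0 z ?_, ?_⟩
    · rw [hτe]; intro q hq; simp at hq
    · intro ξ hξ
      simp [z] at hξ
  -- enumeration of the requirements
  have hreqc : (A ×ˢ (univ : Set ℕ)).Countable := hAc.prod (to_countable _)
  have hreqne : (A ×ˢ (univ : Set ℕ)).Nonempty := by
    obtain ⟨a, ha⟩ := hAne
    exact ⟨(a, 0), ha, mem_univ _⟩
  obtain ⟨r, hr⟩ := hreqc.exists_eq_range hreqne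
  -- finite approximations
  let step : Finset (I × Bool) → I × ℕ → Finset (I × Bool) := fun p ξn =>
    if h : ∃ τ, (∃ j, e ξn.1 ξn.2 j = some τ) ∧ ∃ z, Sat z p ∧ Sat z τ then p ∪ h.choose else p
  let p : ℕ → Finset (I × Bool) := fun k => Nat.rec τ0 (fun k q => step q (r k)) k
  have hp0 : p 0 = τ0 := rfl
  have hpS : ∀ k, p (k + 1) = step (p k) (r k) := fun k => rfl
  have hstep_sub : ∀ q ξn, q ⊆ step q ξn := by
    intro q ξn
    simp only [step]
    split_ifs with h
    · exact Finset.subset_union_left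
    · exact Finset.Subset.refl _
  have hpmono : Monotone p := monotone_nat_of_le_succ (fun k => by
    rw [hpS]; exact hstep_sub _ _)
  have hcons : ∀ k, ∃ z : I → Bool, Sat z (p k) := by
    intro k
    induction k with
    | zero => exact ⟨x0.1, hxτ0⟩
    | succ k ih =>
      rw [hpS]
      simp only [step]
      split_ifs with h
      · obtain ⟨_, z, hz1, hz2⟩ := h.choose_spec
        refine ⟨z, fun q hq => ?_⟩
        rcases Finset.mem_union.1 hq with hq | hq
        · exact hz1 q hq
        · exact hz2 q hq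
      · exact ih
  have hr_mem : ∀ k, (r k).1 ∈ A := by
    intro k
    have : r k ∈ A ×ˢ (univ : Set ℕ) := by rw [hr]; exact mem_range_self k
    exact this.1
  have hdom : ∀ k, ∀ q ∈ p k, q.1 ∈ A := by
    intro k
    induction k with
    | zero => exact hA0
    | succ k ih =>
      rw [hpS]
      simp only [step]
      split_ifs with h
      · obtain ⟨⟨j, hj⟩, _⟩ := h.choose_spec
        intro q hq
        rcases Finset.mem_union.1 hq with hq | hq
        · exact ih q hq
        · exact hAcl _ (hr_mem k) _ j _ hj q hq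
      · exact ih
  -- the generic point
  let x : I → Bool := fun i =>
    @decide (∃ k : ℕ, ((i, true) : I × Bool) ∈ p k) (Classical.propDecidable _)
  have hxt : ∀ i, x i = true ↔ ∃ k : ℕ, (i, true) ∈ p k := by
    intro i
    exact @decide_eq_true_iff (∃ k : ℕ, ((i, true) : I × Bool) ∈ p k) (Classical.propDecidable _)
  have hxsat : ∀ k, Sat x (p k) := by
    intro k q hq
    obtain ⟨i, b⟩ := q
    cases b with
    | true => exact (hxt i).2 ⟨k, hq⟩
    | false =>
      have : ¬ x i = true := by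
        intro hc
        obtain ⟨k', hk'⟩ := (hxt i).1 hc
        obtain ⟨z, hz⟩ := hcons (max k k')
        have h1 : z i = false := hz (i, false) (hpmono (le_max_left k k') hq)
        have h2 : z i = true := hz (i, true) (hpmono (le_max_right k k') hk')
        rw [h1] at h2
        exact Bool.noConfusion h2
      simpa using this
  have hxc : {i | x i = true}.Countable := by
    refine hAc.mono ?_
    intro i hi
    obtain ⟨k, hk⟩ := (hxt i).1 hi
    exact hdom k _ hk
  refine ⟨⟨x, mem_of_countable_supp hxc⟩, hτ0 _ ?_, ?_⟩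
  · have := hxsat 0
    rw [hp0] at this
    exact this
  · intro ξ hξ n
    have hξA : ξ ∈ A := by
      obtain ⟨k, hk⟩ := (hxt ξ).1 hξ
      exact hdom k _ hk
    obtain ⟨k, hk⟩ : ∃ k, r k = (ξ, n) := by
      have : (ξ, n) ∈ A ×ˢ (univ : Set ℕ) := ⟨hξA, mem_univ _⟩
      rw [hr] at this
      exact this
    by_cases h : ∃ τ, (∃ j, e (r k).1 (r k).2 j = some τ) ∧ ∃ z, Sat z (p k) ∧ Sat z τ
    · left
      have hpk : p (k + 1) = p k ∪ h.choose := by
        rw [hpS]; simp only [step]; rw [dif_pos h]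
      have h2 := hxsat (k + 1)
      rw [hpk] at h2
      have h3 : Sat x h.choose := h2.mono Finset.subset_union_right
      obtain ⟨⟨j, hj⟩, _⟩ := h.choose_spec
      generalize h.choose = σ at h3 hj
      rw [hk] at hj
      exact ⟨j, σ, hj, h3⟩
    · right
      refine ⟨p k, hxsat k, ?_⟩
      intro j τ hj hz
      apply h
      rw [hk]
      exact ⟨τ, ⟨j, hj⟩, hz⟩

/-- Isolating constraints for points of a discrete subset. -/
theorem exists_isolating {F : Set (SigmaProd I)} (hF : DiscreteTopology F)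
    {d : SigmaProd I} (hd : d ∈ F) :
    ∃ τ : Finset (I × Bool), Sat d.1 τ ∧ ∀ d' ∈ F, Sat d'.1 τ → d' = d := by
  rw [discreteTopology_subtype_iff'] at hF
  obtain ⟨U, hU, hUF⟩ := hF d hd
  have hdU : d ∈ U := by
    have : d ∈ U ∩ F := by rw [hUF]; rfl
    exact this.1
  obtain ⟨τ, h1, h2⟩ := exists_sat_subset hU hdU
  refine ⟨τ, h1, fun d' hd' hs => ?_⟩
  have : d' ∈ U ∩ F := ⟨h2 d' hs, hd'⟩
  rw [hUF] at this
  exact this

/-- A countable set of constraints is the range of a sequence of options. -/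
theorem exists_option_enum {α : Type*} {s : Set α} (hs : s.Countable) :
    ∃ f : ℕ → Option α, ∀ a, a ∈ s ↔ ∃ j, f j = some a := by
  rcases s.eq_empty_or_nonempty with rfl | hne
  · exact ⟨fun _ => none, fun a => by simp⟩
  · obtain ⟨f, hf⟩ := hs.exists_eq_range hne
    refine ⟨fun j => some (f j), fun a => ?_⟩
    rw [hf]
    simp

/-- Main combinatorial step: if the codes are assigned so that each code has uncountably many
indices, no `σ`-discrete subset of `GenSet e` is dense. -/
theorem not_dense_of_discrete (e : I → Code I) (he : ∀ c, ¬ {ξ | e ξ = c}.Countable)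
    (F : ℕ → Set (SigmaProd I)) (hFD : ∀ n, F n ⊆ GenSet e)
    (hF : ∀ n, DiscreteTopology (F n)) : ¬ Dense (⋃ n, F n) := by
  classical
  intro hdense
  -- isolating constraints
  have hiso : ∀ n (d : SigmaProd I), ∃ τ : Finset (I × Bool), d ∈ F n →
      Sat d.1 τ ∧ ∀ d' ∈ F n, Sat d'.1 τ → d' = d := by
    intro n d
    by_cases hd : d ∈ F n
    · obtain ⟨τ, h1, h2⟩ := exists_isolating (hF n) hd
      exact ⟨τ, fun _ => ⟨h1, h2⟩⟩
    · exact ⟨∅, fun h => absurd h hd⟩
  choose τ hτ using hiso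
  -- witnesses
  have hwit : ∀ n (p : Finset (I × Bool)), ∃ d : SigmaProd I,
      (∃ d' ∈ F n, ∃ z, Sat z p ∧ Sat z (τ n d')) → d ∈ F n ∧ ∃ z, Sat z p ∧ Sat z (τ n d) := by
    intro n p
    by_cases h : ∃ d' ∈ F n, ∃ z, Sat z p ∧ Sat z (τ n d')
    · obtain ⟨d', h1, h2⟩ := h
      exact ⟨d', fun _ => ⟨h1, h2⟩⟩
    · exact ⟨⟨fun _ => false, mem_of_countable_supp (by simp)⟩, fun h' => absurd h' h⟩
  choose w hw using hwit
  -- closing off
  let cl : Set I → Set I := fun M =>
    M ∪ ⋃ n : ℕ, ⋃ p ∈ {p : Finset (I × Bool) | ∀ q ∈ p, q.1 ∈ M},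
      {i | ∃ q ∈ τ n (w n p), q.1 = i}
  have hdomc : ∀ σ : Finset (I × Bool), {i | ∃ q ∈ σ, q.1 = i}.Countable := by
    intro σ
    refine ((σ.image Prod.fst).finite_toSet.subset ?_).countable
    rintro i ⟨q, hq, rfl⟩
    exact Finset.mem_coe.2 (Finset.mem_image.2 ⟨q, hq, rfl⟩)
  have hfinc : ∀ M : Set I, M.Countable →
      {p : Finset (I × Bool) | ∀ q ∈ p, q.1 ∈ M}.Countable := by
    intro M hM
    have h1 : (M ×ˢ (univ : Set Bool)).Countable := hM.prod (to_countable _)
    have h2 := Set.countable_ofPred_finite_subset h1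
    have h3 : Function.Injective (fun p : Finset (I × Bool) => (p : Set (I × Bool))) :=
      Finset.coe_injective
    have h4 := h2.preimage h3
    refine h4.mono ?_
    intro p hp
    refine ⟨p.finite_toSet, ?_⟩
    intro q hq
    exact ⟨hp q hq, mem_univ _⟩
  have hclc : ∀ M : Set I, M.Countable → (cl M).Countable := by
    intro M hM
    exact hM.union (countable_iUnion fun n => (hfinc M hM).biUnion fun p _ => hdomc _)
  let Mn : ℕ → Set I := fun m => Nat.rec ∅ (fun _ M => cl M) m
  have hMnS : ∀ m, Mn (m + 1) = cl (Mn m) := fun m => rfl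
  have hMnc : ∀ m, (Mn m).Countable := by
    intro m
    induction m with
    | zero => exact countable_empty
    | succ m ih => rw [hMnS]; exact hclc _ ih
  have hMmono : Monotone Mn := monotone_nat_of_le_succ (fun m => by
    rw [hMnS]; exact subset_union_left)
  let M : Set I := ⋃ m, Mn m
  have hMc : M.Countable := countable_iUnion hMnc
  have hfinM : ∀ p : Finset (I × Bool), (∀ q ∈ p, q.1 ∈ M) → ∃ m, ∀ q ∈ p, q.1 ∈ Mn m := by
    intro p
    induction p using Finset.induction_on with
    | empty => intro _; exact ⟨0, by simp⟩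
    | insert a s _ ih =>
      intro h
      obtain ⟨m, hm⟩ := ih (fun q hq => h q (Finset.mem_insert_of_mem hq))
      obtain ⟨m', hm'⟩ := mem_iUnion.1 (h a (Finset.mem_insert_self a s))
      refine ⟨max m m', fun q hq => ?_⟩
      rcases Finset.mem_insert.1 hq with rfl | hq
      · exact hMmono (le_max_right m m') hm'
      · exact hMmono (le_max_left m m') (hm q hq)
  have hMcl : ∀ n p, (∀ q ∈ p, q.1 ∈ M) → ∀ q ∈ τ n (w n p), q.1 ∈ M := by
    intro n p hp q hq
    obtain ⟨m, hm⟩ := hfinM p hp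
    refine mem_iUnion.2 ⟨m + 1, ?_⟩
    rw [hMnS]
    refine Or.inr ?_
    simp only [mem_iUnion]
    exact ⟨n, p, hm, q, hq, rfl⟩
  -- the code
  let s : ℕ → Set (Finset (I × Bool)) := fun n =>
    {σ | ∃ p : Finset (I × Bool), (∀ q ∈ p, q.1 ∈ M) ∧
      (∃ d' ∈ F n, ∃ z, Sat z p ∧ Sat z (τ n d')) ∧ σ = τ n (w n p)}
  have hsc : ∀ n, (s n).Countable := by
    intro n
    refine ((hfinc M hMc).image (fun p => τ n (w n p))).mono ?_
    rintro σ ⟨p, hp, _, rfl⟩
    exact ⟨p, hp, rfl⟩
  choose c hc using fun n => exists_option_enum (hsc n)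
  -- avoid all supports of the witnesses
  let B : Set I := ⋃ n : ℕ, ⋃ p ∈ {p : Finset (I × Bool) | ∀ q ∈ p, q.1 ∈ M},
      {i | (w n p).1 i = true}
  have hBc : B.Countable :=
    countable_iUnion fun n => (hfinc M hMc).biUnion fun p _ => countable_supp _
  obtain ⟨ξ, hξc, hξB⟩ : ∃ ξ, e ξ = c ∧ ξ ∉ B := by
    by_contra hcon
    push Not at hcon
    exact he c (hBc.mono (fun ξ hξ => hcon ξ hξ))
  -- a point of the union with `ξ`-th coordinate `true`
  have hopen := isOpen_coord (I := I) ξ true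
  have hne : {y : SigmaProd I | y.1 ξ = true}.Nonempty := by
    refine ⟨⟨fun i => decide (i = ξ), mem_of_countable_supp ?_⟩, by simp⟩
    refine (countable_singleton ξ).mono ?_
    intro i hi
    simpa using hi
  obtain ⟨d, hdξ, hdF⟩ := hdense.inter_open_nonempty _ hopen hne
  obtain ⟨n, hdn⟩ := mem_iUnion.1 hdF
  have hdξ' : d.1 ξ = true := hdξ
  have hgen := hFD n hdn ξ hdξ' n
  rw [hξc] at hgen
  rcases hgen with ⟨j, σ, hj, hsat⟩ | ⟨p, hdp, hinc⟩
  · have hσ : σ ∈ s n := (hc n σ).2 ⟨j, hj⟩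
    obtain ⟨p, hp, hex, rfl⟩ := hσ
    obtain ⟨hwF, _⟩ := hw n p hex
    have hd := (hτ n (w n p) hwF).2 d hdn hsat
    apply hξB
    simp only [B, mem_iUnion]
    refine ⟨n, p, hp, ?_⟩
    show (w n p).1 ξ = true
    rw [← hd]; exact hdξ'
  · -- restrict `p` to `M`
    let p' := p.filter (fun q => q.1 ∈ M)
    have hp'M : ∀ q ∈ p', q.1 ∈ M := fun q hq => (Finset.mem_filter.1 hq).2
    have hdp' : Sat d.1 p' := hdp.mono (Finset.filter_subset _ _)
    have hex : ∃ d' ∈ F n, ∃ z, Sat z p' ∧ Sat z (τ n d') :=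
      ⟨d, hdn, d.1, hdp', (hτ n d hdn).1⟩
    obtain ⟨hwF, z, hz1, hz2⟩ := hw n p' hex
    have hσ : τ n (w n p') ∈ s n := ⟨p', hp'M, hex, rfl⟩
    obtain ⟨j, hj⟩ := (hc n _).1 hσ
    apply hinc j _ hj
    refine ⟨fun i => if i ∈ M then z i else d.1 i, ?_, ?_⟩
    · intro q hq
      by_cases hqM : q.1 ∈ M
      · simp only [hqM, if_true]
        exact hz1 q (Finset.mem_filter.2 ⟨hq, hqM⟩)
      · simp only [hqM, if_false]
        exact hdp q hq
    · intro q hq
      have hqM : q.1 ∈ M := hMcl n p' hp'M q hq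
      simp only [hqM, if_true]
      exact hz2 q hq

/-- If `#I ^ ℵ₀ = #I` and `I` is infinite, all codes can be listed with uncountable fibres. -/
theorem exists_coding [Infinite I] (h : #I ^ ℵ₀ = #I) :
    ∃ e : I → Code I, ∀ c, ¬ {ξ | e ξ = c}.Countable := by
  classical
  have hI : ℵ₀ ≤ #I := Cardinal.aleph0_le_mk I
  have hunc : ℵ₀ < #I := by
    calc ℵ₀ < 2 ^ ℵ₀ := Cardinal.cantor _
      _ ≤ #I ^ ℵ₀ := Cardinal.power_le_power_right (le_trans (by
          exact_mod_cast (Cardinal.natCast_lt_aleph0 (n := 2)).le) hI)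
      _ = #I := h
  have hT : #(Option (Finset (I × Bool))) = #I := by
    have h1 : #(Finset (I × Bool)) = #I := by
      rw [Cardinal.mk_finset_of_infinite, Cardinal.mk_prod]
      have h2 : (2 : Cardinal.{u}) ≤ #I := le_trans (by
          exact_mod_cast (Cardinal.natCast_lt_aleph0 (n := 2)).le) hI
      simpa using Cardinal.mul_eq_left hI h2 (by norm_num)
    rw [Cardinal.mk_option, h1]
    exact Cardinal.add_one_eq hI
  have hcode : #(Code I) = #I := by
    have h1 : #(ℕ → Option (Finset (I × Bool))) = #I := by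
      rw [Cardinal.mk_arrow, hT]
      simpa using h
    change #(ℕ → (ℕ → Option (Finset (I × Bool)))) = #I
    rw [Cardinal.mk_arrow, h1]
    simpa using h
  have hprod : #I = #(Code I × I) := by
    rw [Cardinal.mk_prod, hcode]
    simp [Cardinal.mul_eq_self hI]
  obtain ⟨E⟩ := Cardinal.eq.1 hprod
  refine ⟨fun ξ => (E ξ).1, fun c hc => ?_⟩
  -- the map `i ↦ E.symm (c, i)` is injective into the fibre
  have hinj : Function.Injective (fun i : I => E.symm (c, i)) := by
    intro i j hij
    have := E.symm.injective hij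
    exact (Prod.ext_iff.1 this).2
  have hsub : Set.range (fun i : I => E.symm (c, i)) ⊆ {ξ | (E ξ).1 = c} := by
    rintro _ ⟨i, rfl⟩
    simp
  have hcr : (Set.range (fun i : I => E.symm (c, i))).Countable := hc.mono hsub
  have hcI : Countable I := by
    have := hcr.to_subtype
    exact (Equiv.ofInjective _ hinj).injective.countable
  exact absurd (Cardinal.mk_le_aleph0_iff.2 hcI) (not_le.2 hunc)

/-- `Σ(2^I)` is not D-separable if `I` is infinite with `#I ^ ℵ₀ = #I`. -/
theorem not_isDSepUpper [Infinite I] (h : #I ^ ℵ₀ = #I) : ¬ IsDSepUpper (SigmaProd I) := by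
  intro hD
  obtain ⟨e, he⟩ := exists_coding h
  obtain ⟨F, hF1, hF2, hF3⟩ := hD (fun _ => GenSet e) (fun _ => dense_genSet e)
  exact not_dense_of_discrete e he F hF1 hF2 hF3

end Pool.Agent.H.MP_339821_gt
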